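import Pool.Agent.MP_92191b_al.K6.Basic
import Pool.Agent.MP_92191b_al.K5.M8c

/-! The hybrid plane is monochrome over five letters. -/

set_option linter.unusedSectionVars false

namespace Pool.Agent.MP_92191b_al.K5

open Finset Function Equiv K6

variable {α : Type} [Fintype α] [DecidableEq α]

/-- The letter with a given number. -/
def en (E : Fin 5 ≃ α) (n : ℕ) : α := E (Fin.ofNat 5 n)

theorem en_inj (E : Fin 5 ≃ α) {u v : ℕ} (hu : u < 5) (hv : v < 5) : en E u = en E v ↔ u = v := by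
  refine ⟨fun h => ?_, fun h => by rw [h]⟩
  have h1 := congrArg Fin.val (E.injective h)
  simp only [Fin.val_ofNat] at h1
  omega

theorem en_surj (E : Fin 5 ≃ α) (d : α) : ∃ u < 5, d = en E u :=
  ⟨(E.symm d).val, (E.symm d).isLt, by simp [en]⟩

theorem nq_en (E : Fin 5 ≃ α) {u v : ℕ} (hu : u < 5) (hv : v < 5) :
    nq (en E u) (en E v) = nd u v := by
  unfold nq nd
  by_cases h : u = v
  · subst h
    simp
  · rw [if_neg fun h' => h ((en_inj E hu hv).1 h')]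
    have : Nat.beq u v = false := by
      rw [Bool.eq_false_iff]
      exact fun h' => h (Nat.eq_of_beq_eq_true h')
    rw [this]
    rfl

theorem ap_lt (s u : ℕ) : ap s u < 5 := Nat.mod_lt _ (by norm_num)

theorem exists_rho (E G : Fin 5 ≃ α) {s : ℕ} (hs : Inj5 s) :
    ∃ ρ : Perm α, ∀ u < 5, ρ (en G u) = en E (ap s u) := by
  let f : Fin 5 → Fin 5 := fun u => ⟨ap s u, ap_lt _ _⟩
  have hf : Injective f := fun u v h => Fin.ext (hs u u.isLt v v.isLt (congrArg Fin.val h))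
  refine ⟨G.symm.trans ((Equiv.ofBijective f (Finite.injective_iff_bijective.1 hf)).trans E),
    fun u hu => ?_⟩
  simp only [en, Equiv.trans_apply, Equiv.symm_apply_apply, Equiv.ofBijective_apply]
  congr 1
  refine Fin.ext ?_
  simp only [f, Fin.val_ofNat, Nat.mod_eq_of_lt hu, Nat.mod_eq_of_lt (ap_lt s u)]

theorem cov_aux {Q : R6 α} (h : Ex3 Q) (E1 E2 E3 G1 G2 G3 : Fin 5 ≃ α) {s0 s1 s2 : ℕ}
    (h0 : Inj5 s0) (h1 : Inj5 s1) (h2 : Inj5 s2) : ∃ u < 5, ∃ v < 5, ∃ w < 5,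
      Q (en E1 (ap s0 u)) (en E2 (ap s1 v)) (en E3 (ap s2 w)) (en G1 u) (en G2 v) (en G3 w) := by
  obtain ⟨ρ1, r1⟩ := exists_rho E1 G1 h0
  obtain ⟨ρ2, r2⟩ := exists_rho E2 G2 h1
  obtain ⟨ρ3, r3⟩ := exists_rho E3 G3 h2
  obtain ⟨d1, d2, d3, hd⟩ := h ρ1 ρ2 ρ3
  obtain ⟨u, hu, rfl⟩ := en_surj G1 d1
  obtain ⟨v, hv, rfl⟩ := en_surj G2 d2
  obtain ⟨w, hw, rfl⟩ := en_surj G3 d3
  rw [r1 u hu, r2 v hv, r3 w hw] at hd
  exact ⟨u, hu, v, hv, w, hw, hd⟩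

theorem isH_iff (a b d e : ℕ) : isH a b d e = true ↔
    (((a = 0 ∧ b = 0) ∨ (a = 1 ∧ b = 1)) ∧ d = 0 ∧ e ≠ 0) ∨
    (((a = 0 ∧ b = 1) ∨ (a = 1 ∧ b = 0)) ∧ d ≠ 0 ∧ e = 0) ∨
    (a ≠ 0 ∧ a ≠ 1 ∧ b ≠ 0 ∧ b ≠ 1 ∧ d = 0 ∧ e = 0) := by
  simp only [isH, Bool.or_eq_true, Bool.and_eq_true, Bool.not_eq_true', Bool.eq_false_iff,
    Nat.beq_eq, ne_eq]
  tauto

theorem m8five (hk : Fintype.card α = 5) (Q : R6 α) (σ : Perm α) (a0 a1 x0 x1 y1 y2 : α)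
    (hQ : Sec Q) (h8 : Is8 (p12 Q σ) a0 a1 x0 x1 y1 y2) (b b' w w' : α)
    (hw : Q a0 x0 (σ w) y1 b w) (hw' : Q a0 x0 (σ w') y1 b' w') : w = w' := by
  by_contra hne
  have ha := h8.1
  have hx := h8.2.1
  have hb : ∀ b w, Q a0 x0 (σ w) y1 b w → b ≠ y2 := fun b w h => by
    have := (h8.2.2 a0 x0 y1 b).1 ⟨w, h⟩
    tauto
  have hbb : b ≠ b' := by
    rintro rfl
    exact hne (hQ.sep _ _ _ _ _ _ _ _ _ _ _ _ hw hw' (by simp)).2.2.2.2.2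
  let E0 : Fin 5 ≃ α := (Fintype.equivFinOfCardEq hk).symm
  have n01 : E0 0 ≠ E0 1 := fun h => absurd (E0.injective h) (by decide)
  have n02 : E0 0 ≠ E0 2 := fun h => absurd (E0.injective h) (by decide)
  have n12 : E0 1 ≠ E0 2 := fun h => absurd (E0.injective h) (by decide)
  obtain ⟨τ1, p1, p1'⟩ := exists_perm2 n01 ha
  obtain ⟨τ2, p2, p2'⟩ := exists_perm2 n01 hx
  obtain ⟨τ3, p3⟩ := exists_perm1 (E0 0) y1
  obtain ⟨τ4, p4, p4', p4''⟩ := exists_perm3 n01 n02 n12 (hb b w hw).symm (hb b' w' hw').symm hbb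
  obtain ⟨τ5, p5, p5'⟩ := exists_perm2 n01 hne
  let E1 := E0.trans τ1
  let E2 := E0.trans τ2
  let G1 := E0.trans τ3
  let G2 := E0.trans τ4
  let G3 := E0.trans τ5
  let E3 := G3.trans σ
  have q1 : a0 = en E1 0 := p1.symm
  have q1' : a1 = en E1 1 := p1'.symm
  have q2 : x0 = en E2 0 := p2.symm
  have q2' : x1 = en E2 1 := p2'.symm
  have q3 : y1 = en G1 0 := p3.symm
  have q4 : y2 = en G2 0 := p4.symm
  have q4' : b = en G2 1 := p4'.symm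
  have q4'' : b' = en G2 2 := p4''.symm
  have q5 : w = en G3 0 := p5.symm
  have q5' : w' = en G3 1 := p5'.symm
  have q6 : ∀ n, en E3 n = σ (en G3 n) := fun n => rfl
  have hH : ∀ a < 5, ∀ b < 5, ∀ d < 5, ∀ e < 5,
      p12 Q σ (en E1 a) (en E2 b) (en G1 d) (en G2 e) ↔ isH a b d e = true := by
    intro a ha b hb d hd e he
    rw [h8.2.2, isH_iff, q1, q1', q2, q2', q3, q4]
    simp only [ne_eq, en_inj _ ha (by norm_num : 0 < 5), en_inj _ ha (by norm_num : 1 < 5),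
      en_inj _ hb (by norm_num : 0 < 5), en_inj _ hb (by norm_num : 1 < 5),
      en_inj _ hd (by norm_num : 0 < 5), en_inj _ he (by norm_num : 0 < 5)]
  refine m8nat (T := fun a b c d e f => (a < 5 ∧ b < 5 ∧ c < 5 ∧ d < 5 ∧ e < 5 ∧ f < 5) ∧
    Q (en E1 a) (en E2 b) (en E3 c) (en G1 d) (en G2 e) (en G3 f)) ⟨?_, ?_, ?_, ?_⟩ ?_ ?_
  · rintro a b c d e f a' b' c' d' e' f' ⟨⟨l1, l2, l3, l4, l5, l6⟩, h⟩
      ⟨⟨k1, k2, k3, k4, k5, k6⟩, h'⟩ he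
    rw [← nq_en E1 l1 k1, ← nq_en E2 l2 k2, ← nq_en E3 l3 k3] at he ⊢
    rw [← nq_en G1 l4 k4, ← nq_en G2 l5 k5, ← nq_en G3 l6 k6] at he
    obtain ⟨e1, e2, e3, -⟩ := hQ.sep _ _ _ _ _ _ _ _ _ _ _ _ h h' he
    rw [e1, e2, e3]
    simp
  · intro p hp s0 s1 s2 h0 h1 h2
    interval_cases p
    · obtain ⟨u, hu, v, hv, w, hw, h⟩ := cov_aux (hQ.ex _ Orb.refl) E1 E2 E3 G1 G2 G3 h0 h1 h2
      exact ⟨u, hu, v, hv, w, hw, ⟨ap_lt _ _, ap_lt _ _, ap_lt _ _, hu, hv, hw⟩, h⟩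
    · obtain ⟨u, hu, v, hv, w, hw, h⟩ :=
        cov_aux (hQ.ex _ Orb.refl.d12) E1 E2 E3 G2 G1 G3 h0 h1 h2
      exact ⟨u, hu, v, hv, w, hw, ⟨ap_lt _ _, ap_lt _ _, ap_lt _ _, hv, hu, hw⟩, h⟩
    · obtain ⟨u, hu, v, hv, w, hw, h⟩ :=
        cov_aux (hQ.ex _ Orb.refl.d23) E1 E2 E3 G1 G3 G2 h0 h1 h2
      exact ⟨u, hu, v, hv, w, hw, ⟨ap_lt _ _, ap_lt _ _, ap_lt _ _, hu, hw, hv⟩, h⟩
    · obtain ⟨u, hu, v, hv, w, hw, h⟩ :=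
        cov_aux (hQ.ex _ Orb.refl.d12.d23.d12) E1 E2 E3 G3 G2 G1 h0 h1 h2
      exact ⟨u, hu, v, hv, w, hw, ⟨ap_lt _ _, ap_lt _ _, ap_lt _ _, hw, hv, hu⟩, h⟩
    · obtain ⟨u, hu, v, hv, w, hw, h⟩ :=
        cov_aux (hQ.ex _ Orb.refl.d12.d23) E1 E2 E3 G2 G3 G1 h0 h1 h2
      exact ⟨u, hu, v, hv, w, hw, ⟨ap_lt _ _, ap_lt _ _, ap_lt _ _, hw, hu, hv⟩, h⟩
    · obtain ⟨u, hu, v, hv, w, hw, h⟩ :=
        cov_aux (hQ.ex _ Orb.refl.d23.d12) E1 E2 E3 G3 G1 G2 h0 h1 h2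
      exact ⟨u, hu, v, hv, w, hw, ⟨ap_lt _ _, ap_lt _ _, ap_lt _ _, hv, hw, hu⟩, h⟩
  · intro a ha b hb d hd e he h
    obtain ⟨d3, h'⟩ := (hH a ha b hb d hd e he).2 h
    obtain ⟨v, hv, rfl⟩ := en_surj G3 d3
    exact ⟨v, hv, ⟨ha, hb, hv, hd, he, hv⟩, h'⟩
  · rintro a b c d e ⟨⟨l1, l2, -, l4, l5, -⟩, h⟩
    exact (hH a l1 b l2 d l4 e l5).1 ⟨_, h⟩
  · refine ⟨by norm_num, ?_⟩
    rw [q6, ← q1, ← q2, ← q3, ← q4', ← q5]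
    exact hw
  · refine ⟨by norm_num, ?_⟩
    rw [q6, ← q1, ← q2, ← q3, ← q4'', ← q5']
    exact hw'

end Pool.Agent.MP_92191b_al.K5
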