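import Pool.Agent.MP_92191b_al.K5.CnT
import Pool.Agent.MP_92191b_al.K5.M8five

/-! The arms of a centred cross over five letters. -/

set_option linter.unusedSectionVars false

namespace Pool.Agent.MP_92191b_al.K5

open Finset Function Equiv K6 Cn

variable {ι α : Type} [Fintype α] [DecidableEq α]

def tb (b1 b2 b3 b4 : Bool) : ℕ := cond b1 1 0 + cond b2 2 0 + cond b3 4 0 + cond b4 8 0

theorem tb_spec : ∀ b1 b2 b3 b4 : Bool, tb b1 b2 b3 b4 < 16 ∧ (tb b1 b2 b3 b4).testBit 0 = b1 ∧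
    (tb b1 b2 b3 b4).testBit 1 = b2 ∧ (tb b1 b2 b3 b4).testBit 2 = b3 ∧
    (tb b1 b2 b3 b4).testBit 3 = b4 := by decide

def pc (s : ℕ) : ℕ := s % 2 + s / 2 % 2 + s / 4 % 2 + s / 8 % 2

/-- The pairs of sets of arms that can deviate at two coordinates. -/
def Pt (s s' : ℕ) : Bool :=
  (Nat.beq (pc s) 2 && Nat.beq (pc s') 2 && Nat.beq (pc (s &&& s')) 1) ||
    (Nat.beq s 15 && Nat.beq (pc s') 3) || (Nat.beq (pc s) 3 && Nat.beq s' 15)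

def Rl (n s1 s2 s : ℕ) : Prop :=
  s.testBit n = true ∧ (s = s1 ∨ Pt s1 s = true) ∧ (s = s2 ∨ Pt s2 s = true)

instance (n s1 s2 s : ℕ) : Decidable (Rl n s1 s2 s) := by unfold Rl; infer_instance

def Bad (n s1 s2 : ℕ) : Prop :=
  ∀ s3 < 16, Rl n s1 s2 s3 → ∀ s4 < 16, Rl n s1 s2 s4 → Pt s3 s4 = false

instance (n s1 s2 : ℕ) : Decidable (Bad n s1 s2) := by unfold Bad; infer_instance

theorem ptA : ∀ s1 < 16, ∀ s2 < 16, Pt s1 s2 = true → ∃ n < 4, Bad n s1 s2 := by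
  decide +kernel

instance (t1 t2 t3 t4 : ℕ) : Decidable (pat t1 t2 t3 t4) := by unfold pat; infer_instance

def Pb (p1 p2 p3 p4 : ℕ) : Prop := ∀ s < 16, ∀ s' < 16,
  pat (tb false (s.testBit (p1 - 1)) false (s'.testBit (p1 - 1)))
    (tb false (s.testBit (p2 - 1)) false (s'.testBit (p2 - 1)))
    (tb false (s.testBit (p3 - 1)) false (s'.testBit (p3 - 1)))
    (tb false (s.testBit (p4 - 1)) false (s'.testBit (p4 - 1))) → Pt s s' = true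

instance (p1 p2 p3 p4 : ℕ) : Decidable (Pb p1 p2 p3 p4) := by unfold Pb; infer_instance

def Ds (p1 p2 p3 p4 : ℕ) : Prop := p1 ≠ 0 ∧ p2 ≠ 0 ∧ p3 ≠ 0 ∧ p4 ≠ 0 ∧ p1 ≠ p2 ∧ p1 ≠ p3 ∧
  p1 ≠ p4 ∧ p2 ≠ p3 ∧ p2 ≠ p4 ∧ p3 ≠ p4

instance (p1 p2 p3 p4 : ℕ) : Decidable (Ds p1 p2 p3 p4) := by unfold Ds; infer_instance

theorem ptB : ∀ p1 < 5, ∀ p2 < 5, ∀ p3 < 5, ∀ p4 < 5, Ds p1 p2 p3 p4 → Pb p1 p2 p3 p4 := by
  decide +kernel

/-- The set of arms on which `ψ` deviates from `z`. -/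
def cd (E : Fin 5 ≃ α) (ψ : α → α) (z : α) : ℕ :=
  tb (nz (ψ (en E 1)) z) (nz (ψ (en E 2)) z) (nz (ψ (en E 3)) z) (nz (ψ (en E 4)) z)

theorem cd_lt (E : Fin 5 ≃ α) (ψ : α → α) (z : α) : cd E ψ z < 16 := (tb_spec _ _ _ _).1

theorem cd_bit (E : Fin 5 ≃ α) (ψ : α → α) (z : α) {p : ℕ} (hp : p < 5) (h0 : p ≠ 0) :
    (cd E ψ z).testBit (p - 1) = nz (ψ (en E p)) z := by
  obtain ⟨-, a1, a2, a3, a4⟩ := tb_spec (nz (ψ (en E 1)) z) (nz (ψ (en E 2)) z)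
    (nz (ψ (en E 3)) z) (nz (ψ (en E 4)) z)
  interval_cases p
  · exact absurd rfl h0
  · exact a1
  · exact a2
  · exact a3
  · exact a4

theorem nq_en' (E : Fin 5 ≃ α) {u v : ℕ} (hu : u < 5) (hv : v < 5) :
    nq (en E u) (en E v) = nq u v := by
  simp only [nq, en_inj E hu hv]

theorem nz_en (E : Fin 5 ≃ α) {u v : ℕ} (hu : u < 5) (hv : v < 5) :
    nz (en E u) (en E v) = !decide (u = v) := by
  simp only [nz, ne_eq, en_inj E hu hv, decide_not]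

def WW (W : W4 α) (E1 E2 E3 E4 : Fin 5 ≃ α) (y : ℕ) : Prop :=
  W (en E1 (da y)) (en E2 (db y)) (en E3 (dc y)) (en E4 (dd y)) ((y % 16).testBit 0)
    ((y % 16).testBit 1) ((y % 16).testBit 2) ((y % 16).testBit 3)

def Ok (p : ℕ) (A B C D : Bool) (t : ℕ) : Prop :=
  A ≠ (k1 p).testBit t ∧ B ≠ (k2 p).testBit t ∧ C ≠ (k3 p).testBit t ∧ D ≠ (k4 p).testBit t ∧
    (k0 p).testBit t = true

instance (p : ℕ) (A B C D : Bool) (t : ℕ) : Decidable (Ok p A B C D t) := by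
  unfold Ok; infer_instance

theorem mkW {W : W4 α} {E1 E2 E3 E4 : Fin 5 ≃ α} {a b c d p z1 z2 z3 z4 : ℕ} {b1 b2 b3 b4 : Bool}
    (ha : a < 5) (hb : b < 5) (hc : c < 5) (hd : d < 5)
    (h : W (en E1 a) (en E2 b) (en E3 c) (en E4 d) b1 b2 b3 b4)
    (ho : Ok p (decide (a = z1)) (decide (b = z2)) (decide (c = z3)) (decide (d = z4))
      (tb b1 b2 b3 b4)) : ∃ y < 10000, WW W E1 E2 E3 E4 y ∧ inI p z1 z2 z3 z4 y := by
  obtain ⟨t0, t1, t2, t3, t4⟩ := tb_spec b1 b2 b3 b4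
  obtain ⟨l, s1, s2, s3, s4, s0⟩ := idx_spec ha hb hc hd t0
  refine ⟨_, l, ?_, ?_⟩
  · rwa [WW, s1, s2, s3, s4, s0, t1, t2, t3, t4]
  · rwa [inI, s1, s2, s3, s4, s0]

theorem ok0 : ∀ A B C D : Bool, Ok 0 A B C D (tb (!A) (!B) (!C) (!D)) ∧
    Ok 1 A B C D (tb (!B) (!A) (!C) (!D)) ∧ Ok 2 A B C D (tb (!D) (!B) (!C) (!A)) ∧
    Ok 3 A B C D (tb (!A) (!B) (!D) (!C)) := by decide +kernel

theorem ok4 : ∀ B D : Bool, Ok 4 true B true D (tb false (!B) false (!D)) ∧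
    Ok 5 true B true D (tb false (!B) false (!D)) ∧
    Ok 6 true false false D (tb false (!false) false (!D)) ∧
    Ok 7 false B true false (tb false (!B) false (!false)) ∧
    Ok 8 false false true D (tb false (!false) false (!D)) ∧
    Ok 9 true B false false (tb false (!B) false (!false)) ∧
    Ok 10 true B true true (tb false (!B) false (!true)) ∧
    Ok 11 true true true D (tb false (!true) false (!D)) := by decide +kernel

theorem ok12 : ∀ t < 16, ∀ A B C D : Bool, Ok 12 A B C D t →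
    A = false ∧ C = true ∧ t = tb false (!B) false (!D) := by decide +kernel

theorem core (md : Bool) (t : Cn.Tr) (ht : Cn.chk md t [5] 0 (cm 5) = true) {W : W4 α}
    (hW : CSec4 W) (E1 E2 E3 E4 : Fin 5 ≃ α) {φ φ' ψ ψ' : α → α}
    (c0 : W (en E1 0) (en E2 0) (en E3 0) (en E4 0) true false true false)
    (hA : ∀ b, W (en E1 0) (φ b) b (φ' b) false (nz (φ b) (en E2 0)) false (nz (φ' b) (en E4 0)))
    (hB : ∀ b, W b (ψ b) (en E3 0) (ψ' b) false (nz (ψ b) (en E2 0)) false (nz (ψ' b) (en E4 0)))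
    (e1 : ∃ a, a ≠ en E3 0 ∧ φ a ≠ en E2 0) (e2 : ∃ a, a ≠ en E1 0 ∧ ψ' a ≠ en E4 0)
    (h0 : md = false → (∃ a, a ≠ en E1 0 ∧ ψ a ≠ en E2 0) ∧ (∃ a, a ≠ en E3 0 ∧ φ' a ≠ en E4 0) ∧
      Pt (cd E1 ψ (en E2 0)) (cd E1 ψ' (en E4 0)) = false)
    (h1 : md = true → (∀ a, a ≠ en E1 0 → ψ a = en E2 0) ∧ ∀ a, a ≠ en E3 0 → φ' a = en E4 0) :
    False := by
  have l0 : (0 : ℕ) < 5 := by norm_num
  have armA : ∀ c < 5, ∃ b < 5, ∃ d < 5, φ (en E3 c) = en E2 b ∧ φ' (en E3 c) = en E4 d ∧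
      W (en E1 0) (en E2 b) (en E3 c) (en E4 d) false (!decide (b = 0)) false (!decide (d = 0)) := by
    intro c _
    obtain ⟨b, hb, q⟩ := en_surj E2 (φ (en E3 c))
    obtain ⟨d, hd, q'⟩ := en_surj E4 (φ' (en E3 c))
    have := hA (en E3 c)
    rw [q, q', nz_en _ hb l0, nz_en _ hd l0] at this
    exact ⟨b, hb, d, hd, q, q', this⟩
  have armB : ∀ a < 5, ∃ b < 5, ∃ d < 5, ψ (en E1 a) = en E2 b ∧ ψ' (en E1 a) = en E4 d ∧
      W (en E1 a) (en E2 b) (en E3 0) (en E4 d) false (!decide (b = 0)) false (!decide (d = 0)) := by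
    intro a _
    obtain ⟨b, hb, q⟩ := en_surj E2 (ψ (en E1 a))
    obtain ⟨d, hd, q'⟩ := en_surj E4 (ψ' (en E1 a))
    have := hB (en E1 a)
    rw [q, q', nz_en _ hb l0, nz_en _ hd l0] at this
    exact ⟨b, hb, d, hd, q, q', this⟩
  refine sound0 ht (W := WW W E1 E2 E3 E4) ⟨?_, ?_, ?_⟩ c0
  · rintro y hy x hx wy wx ⟨p, q, r⟩
    have e : nq (en E1 (da y)) (en E1 (da x)) + nq (en E2 (db y)) (en E2 (db x)) +
        nq (en E3 (dc y)) (en E3 (dc x)) + nq (en E4 (dd y)) (en E4 (dd x)) = ds y x := by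
      rw [nq_en' _ (da_lt hy) (da_lt hx), nq_en' _ (db_lt y) (db_lt x),
        nq_en' _ (dc_lt y) (dc_lt x), nq_en' _ (dd_lt y) (dd_lt x), ds]
    obtain ⟨a1, a2, a3, a4⟩ := hW.sep _ _ _ _ _ _ _ _ _ _ _ _ _ _ _ _ wy wx (e ▸ q) (e ▸ r)
    rw [← e, a1, a2, a3, a4] at p
    simp at p
  · intro p z1 l1 z2 l2 z3 l3 z4 l4 h
    rcases h with h | ⟨rfl, rfl, ⟨rfl, rfl⟩ | ⟨rfl, rfl⟩ | ⟨rfl, rfl, rfl | rfl | ⟨hm, rfl | rfl⟩⟩ |
      ⟨hm, ⟨rfl, rfl, hz⟩ | ⟨rfl, rfl, hz⟩⟩⟩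
    · interval_cases p
      all_goals
        first
          | obtain ⟨c1, c2, c3, c4, w⟩ := hW.ex (en E1 z1) (en E2 z2) (en E3 z3) (en E4 z4)
            obtain ⟨a, ha, rfl⟩ := en_surj E1 c1
            obtain ⟨b, hb, rfl⟩ := en_surj E2 c2
            obtain ⟨c, hc, rfl⟩ := en_surj E3 c3
            obtain ⟨d, hd, rfl⟩ := en_surj E4 c4
            rw [nz_en _ ha l1, nz_en _ hb l2, nz_en _ hc l3, nz_en _ hd l4] at w
            exact mkW ha hb hc hd w (ok0 _ _ _ _).1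
          | obtain ⟨c1, c2, c3, c4, w⟩ := hW.ex12 (en E1 z1) (en E2 z2) (en E3 z3) (en E4 z4)
            obtain ⟨a, ha, rfl⟩ := en_surj E1 c1
            obtain ⟨b, hb, rfl⟩ := en_surj E2 c2
            obtain ⟨c, hc, rfl⟩ := en_surj E3 c3
            obtain ⟨d, hd, rfl⟩ := en_surj E4 c4
            rw [nz_en _ ha l1, nz_en _ hb l2, nz_en _ hc l3, nz_en _ hd l4] at w
            exact mkW ha hb hc hd w (ok0 _ _ _ _).2.1
          | obtain ⟨c1, c2, c3, c4, w⟩ := hW.ex14 (en E1 z1) (en E2 z2) (en E3 z3) (en E4 z4)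
            obtain ⟨a, ha, rfl⟩ := en_surj E1 c1
            obtain ⟨b, hb, rfl⟩ := en_surj E2 c2
            obtain ⟨c, hc, rfl⟩ := en_surj E3 c3
            obtain ⟨d, hd, rfl⟩ := en_surj E4 c4
            rw [nz_en _ ha l1, nz_en _ hb l2, nz_en _ hc l3, nz_en _ hd l4] at w
            exact mkW ha hb hc hd w (ok0 _ _ _ _).2.2.1
          | obtain ⟨c1, c2, c3, c4, w⟩ := hW.ex34 (en E1 z1) (en E2 z2) (en E3 z3) (en E4 z4)
            obtain ⟨a, ha, rfl⟩ := en_surj E1 c1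
            obtain ⟨b, hb, rfl⟩ := en_surj E2 c2
            obtain ⟨c, hc, rfl⟩ := en_surj E3 c3
            obtain ⟨d, hd, rfl⟩ := en_surj E4 c4
            rw [nz_en _ ha l1, nz_en _ hb l2, nz_en _ hc l3, nz_en _ hd l4] at w
            exact mkW ha hb hc hd w (ok0 _ _ _ _).2.2.2
    · obtain ⟨b, hb, d, hd, -, -, w⟩ := armA z3 l3
      exact mkW l0 hb l3 hd w (by simpa only [decide_true] using (ok4 _ _).1)
    · obtain ⟨b, hb, d, hd, -, -, w⟩ := armB z1 l1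
      exact mkW l1 hb l0 hd w (by simpa only [decide_true] using (ok4 _ _).2.1)
    · obtain ⟨a, n1, n2⟩ := e1
      obtain ⟨c, hc, rfl⟩ := en_surj E3 a
      obtain ⟨b, hb, d, hd, q, -, w⟩ := armA c hc
      have m1 : c ≠ 0 := fun h => n1 (by rw [h])
      have m2 : b ≠ 0 := fun h => n2 (by rw [q, h])
      exact mkW l0 hb hc hd w
        (by simpa only [decide_true, m1, m2, decide_false] using (ok4 true _).2.2.1)
    · obtain ⟨a, n1, n2⟩ := e2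
      obtain ⟨c, hc, rfl⟩ := en_surj E1 a
      obtain ⟨b, hb, d, hd, -, q, w⟩ := armB c hc
      have m1 : c ≠ 0 := fun h => n1 (by rw [h])
      have m2 : d ≠ 0 := fun h => n2 (by rw [q, h])
      exact mkW hc hb l0 hd w
        (by simpa only [decide_true, m1, m2, decide_false] using (ok4 _ true).2.2.2.1)
    · obtain ⟨a, n1, n2⟩ := (h0 hm).1
      obtain ⟨c, hc, rfl⟩ := en_surj E1 a
      obtain ⟨b, hb, d, hd, q, -, w⟩ := armB c hc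
      have m1 : c ≠ 0 := fun h => n1 (by rw [h])
      have m2 : b ≠ 0 := fun h => n2 (by rw [q, h])
      exact mkW hc hb l0 hd w
        (by simpa only [decide_true, m1, m2, decide_false] using (ok4 true _).2.2.2.2.1)
    · obtain ⟨a, n1, n2⟩ := (h0 hm).2.1
      obtain ⟨c, hc, rfl⟩ := en_surj E3 a
      obtain ⟨b, hb, d, hd, -, q, w⟩ := armA c hc
      have m1 : c ≠ 0 := fun h => n1 (by rw [h])
      have m2 : d ≠ 0 := fun h => n2 (by rw [q, h])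
      exact mkW l0 hb hc hd w
        (by simpa only [decide_true, m1, m2, decide_false] using (ok4 _ true).2.2.2.2.2.1)
    · obtain ⟨b, hb, d, hd, -, q, w⟩ := armA z3 l3
      have m : d = 0 := (en_inj E4 hd l0).1
        (q.symm.trans ((h1 hm).2 _ fun h => hz ((en_inj E3 l3 l0).1 h)))
      subst m
      exact mkW l0 hb l3 hd w (by simpa only [decide_true] using (ok4 _ true).2.2.2.2.2.2.1)
    · obtain ⟨b, hb, d, hd, q, -, w⟩ := armB z1 l1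
      have m : b = 0 := (en_inj E2 hb l0).1
        (q.symm.trans ((h1 hm).1 _ fun h => hz ((en_inj E1 l1 l0).1 h)))
      subst m
      exact mkW l1 hb l0 hd w (by simpa only [decide_true] using (ok4 true _).2.2.2.2.2.2.2)
  · have key : ∀ y < 10000, WW W E1 E2 E3 E4 y → inI 12 0 0 0 0 y → da y ≠ 0 ∧
        y % 16 = tb false ((cd E1 ψ (en E2 0)).testBit (da y - 1)) false
          ((cd E1 ψ' (en E4 0)).testBit (da y - 1)) := by
      intro y hy wy iy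
      obtain ⟨a1, a2, a3⟩ := ok12 _ (Nat.mod_lt y (by norm_num)) _ _ _ _ iy
      have n1 : da y ≠ 0 := of_decide_eq_false a1
      obtain ⟨-, t1, t2, t3, t4⟩ := tb_spec false (!decide (db y = 0)) false (!decide (dd y = 0))
      rw [WW, a3, t1, t2, t3, t4, of_decide_eq_true a2, ← nz_en E2 (db_lt y) l0,
        ← nz_en E4 (dd_lt y) l0] at wy
      have u1 := nz_le_nq (en E2 (db y)) (ψ (en E1 (da y))) (en E2 0)
      have u2 := nq_le_bo (en E2 (db y)) (ψ (en E1 (da y))) (en E2 0)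
      have u3 := nz_le_nq (en E4 (dd y)) (ψ' (en E1 (da y))) (en E4 0)
      have u4 := nq_le_bo (en E4 (dd y)) (ψ' (en E1 (da y))) (en E4 0)
      obtain ⟨-, q2, -, q4⟩ := hW.sep _ _ _ _ _ _ _ _ _ _ _ _ _ _ _ _ wy (hB (en E1 (da y)))
        (by simp only [nq_self]; omega) (by simp only [nq_self]; omega)
      refine ⟨n1, ?_⟩
      rw [cd_bit _ _ _ (da_lt hy) n1, cd_bit _ _ _ (da_lt hy) n1, ← q2, ← q4,
        nz_en E2 (db_lt y) l0, nz_en E4 (dd_lt y) l0]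
      exact a3
    rintro hm y1 l1 y2 l2 y3 l3 y4 l4 w1 w2 w3 w4 ⟨i1, i2, i3, i4, d1, d2, d3, d4, d5, d6, hp⟩
    obtain ⟨n1, q1⟩ := key y1 l1 w1 i1
    obtain ⟨n2, q2⟩ := key y2 l2 w2 i2
    obtain ⟨n3, q3⟩ := key y3 l3 w3 i3
    obtain ⟨n4, q4⟩ := key y4 l4 w4 i4
    rw [q1, q2, q3, q4] at hp
    have := ptB _ (da_lt l1) _ (da_lt l2) _ (da_lt l3) _ (da_lt l4)
      ⟨n1, n2, n3, n4, d1, d2, d3, d4, d5, d6⟩ _ (cd_lt _ _ _) _ (cd_lt _ _ _) hp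
    rw [(h0 hm).2.2] at this
    exact absurd this (by decide)

theorem exists_en (hk : Fintype.card α = 5) (x : α) : ∃ E : Fin 5 ≃ α, x = en E 0 := by
  let E0 : Fin 5 ≃ α := (Fintype.equivFinOfCardEq hk).symm
  obtain ⟨τ, h⟩ := exists_perm1 (E0 0) x
  exact ⟨E0.trans τ, h.symm⟩

/-- The data of a centred cross at two further coordinates. -/
def Dat (x1 x3 : α) (z : ι → α) (A B : α → ι → α) (r r' : ι) : Prop :=
  ∃ W : W4 α, CSec4 W ∧ W x1 (z r) x3 (z r') true false true false ∧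
    (∀ b, W x1 (A b r) b (A b r') false (nz (A b r) (z r)) false (nz (A b r') (z r'))) ∧
    ∀ b, W b (B b r) x3 (B b r') false (nz (B b r) (z r)) false (nz (B b r') (z r'))

theorem neither5 (hk : Fintype.card α = 5) {x1 x3 : α} {z : ι → α} {A B : α → ι → α} {r r' : ι}
    (h : Dat x1 x3 z A B r r') (e1 : ∃ a, a ≠ x3 ∧ A a r ≠ z r) (e2 : ∃ a, a ≠ x1 ∧ B a r' ≠ z r')
    (e3 : ∀ a, a ≠ x1 → B a r = z r) (e4 : ∀ a, a ≠ x3 → A a r' = z r') : False := by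
  obtain ⟨W, hW, c0, hA, hB⟩ := h
  obtain ⟨E1, rfl⟩ := exists_en hk x1
  obtain ⟨E3, rfl⟩ := exists_en hk x3
  obtain ⟨E2, q2⟩ := exists_en hk (z r)
  obtain ⟨E4, q4⟩ := exists_en hk (z r')
  rw [q2] at e1 e3
  rw [q4] at e2 e4
  rw [q2, q4] at c0 hA hB
  exact core true tN cN hW E1 E2 E3 E4 c0 hA hB e1 e2 (fun h => absurd h (by decide))
    fun _ => ⟨e3, e4⟩

theorem both5 (hk : Fintype.card α = 5) (E1 : Fin 5 ≃ α) {x3 : α} {z : ι → α} {A B : α → ι → α}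
    {r r' : ι} (h : Dat (en E1 0) x3 z A B r r') (e1 : ∃ a, a ≠ x3 ∧ A a r ≠ z r)
    (e2 : ∃ a, a ≠ en E1 0 ∧ B a r' ≠ z r') (e3 : ∃ a, a ≠ en E1 0 ∧ B a r ≠ z r)
    (e4 : ∃ a, a ≠ x3 ∧ A a r' ≠ z r') :
    Pt (cd E1 (fun b => B b r) (z r)) (cd E1 (fun b => B b r') (z r')) = true := by
  by_contra hp
  obtain ⟨W, hW, c0, hA, hB⟩ := h
  obtain ⟨E3, rfl⟩ := exists_en hk x3
  obtain ⟨E2, q2⟩ := exists_en hk (z r)
  obtain ⟨E4, q4⟩ := exists_en hk (z r')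
  rw [q2] at e1 e3
  rw [q4] at e2 e4
  rw [q2, q4] at c0 hA hB hp
  exact core false tB cB hW E1 E2 E3 E4 c0 hA hB e1 e2
    (fun _ => ⟨e3, e4, Bool.eq_false_iff.2 hp⟩) fun h => absurd h (by decide)

theorem half5 (hk : Fintype.card α = 5) {X : ι → Prop} {x1 x3 : α} {z : ι → α}
    {A B : α → ι → α} (h : ∀ r r', r ≠ r' → X r → X r' → Dat x1 x3 z A B r r')
    (hX : ∀ r, X r → (∃ a, a ≠ x1 ∧ B a r ≠ z r) → ∃ a, a ≠ x3 ∧ A a r ≠ z r)
    (hB : ∀ b, b ≠ x1 → ∃ r1 r2, r1 ≠ r2 ∧ X r1 ∧ X r2 ∧ B b r1 ≠ z r1 ∧ B b r2 ≠ z r2) :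
    False := by
  classical
  obtain ⟨E1, rfl⟩ := exists_en hk x1
  let S : ι → ℕ := fun r => cd E1 (fun b => B b r) (z r)
  let Y : ι → Prop := fun r => X r ∧ ∃ a, a ≠ en E1 0 ∧ B a r ≠ z r
  have hP : ∀ r r', Y r → Y r' → r ≠ r' → Pt (S r) (S r') = true := fun r r' y y' hr =>
    both5 hk E1 (h r r' hr y.1 y'.1) (hX r y.1 y.2) y'.2 y.2 (hX r' y'.1 y'.2)
  have hP' : ∀ r r', Y r → Y r' → S r' = S r ∨ Pt (S r) (S r') = true := fun r r' y y' => by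
    by_cases hr : r = r'
    · exact Or.inl (by rw [hr])
    · exact Or.inr (hP r r' y y' hr)
  have cov : ∀ n < 4, ∃ r1 r2, r1 ≠ r2 ∧ Y r1 ∧ Y r2 ∧ (S r1).testBit n = true ∧
      (S r2).testBit n = true := by
    intro n hn
    have hne : en E1 (n + 1) ≠ en E1 0 := fun e =>
      absurd ((en_inj E1 (by omega) (by omega)).1 e) (by omega)
    obtain ⟨r1, r2, h12, x1, x2, b1, b2⟩ := hB _ hne
    refine ⟨r1, r2, h12, ⟨x1, _, hne, b1⟩, ⟨x2, _, hne, b2⟩, ?_, ?_⟩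
    · exact (cd_bit E1 _ _ (p := n + 1) (by omega) (by omega)).trans (nz_of_ne b1)
    · exact (cd_bit E1 _ _ (p := n + 1) (by omega) (by omega)).trans (nz_of_ne b2)
  obtain ⟨r1, r2, h12, y1, y2, -⟩ := cov 0 (by norm_num)
  obtain ⟨n, hn, hf⟩ := ptA _ (cd_lt _ _ _) _ (cd_lt _ _ _) (hP r1 r2 y1 y2 h12)
  obtain ⟨r3, r4, h34, y3, y4, b3, b4⟩ := cov n hn
  have := hf _ (cd_lt _ _ _) ⟨b3, hP' r1 r3 y1 y3, hP' r2 r3 y2 y3⟩ _ (cd_lt _ _ _)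
    ⟨b4, hP' r1 r4 y1 y4, hP' r2 r4 y2 y4⟩
  rw [hP r3 r4 y3 y4 h34] at this
  exact absurd this (by decide)

theorem arms5 (hk : Fintype.card α = 5) {X : ι → Prop} {x1 x3 : α} {z : ι → α}
    {A B : α → ι → α} (h : ∀ r r', r ≠ r' → X r → X r' → Dat x1 x3 z A B r r')
    (h' : ∀ r r', r ≠ r' → X r → X r' → Dat x3 x1 z B A r r')
    (hA : ∀ b, b ≠ x3 → ∃ r1 r2, r1 ≠ r2 ∧ X r1 ∧ X r2 ∧ A b r1 ≠ z r1 ∧ A b r2 ≠ z r2)
    (hB : ∀ b, b ≠ x1 → ∃ r1 r2, r1 ≠ r2 ∧ X r1 ∧ X r2 ∧ B b r1 ≠ z r1 ∧ B b r2 ≠ z r2) :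
    False := by
  by_cases h1 : ∀ r, X r → (∃ a, a ≠ x1 ∧ B a r ≠ z r) → ∃ a, a ≠ x3 ∧ A a r ≠ z r
  · exact half5 hk h h1 hB
  by_cases h2 : ∀ r, X r → (∃ a, a ≠ x3 ∧ A a r ≠ z r) → ∃ a, a ≠ x1 ∧ B a r ≠ z r
  · exact half5 hk h' h2 hA
  push Not at h1 h2
  obtain ⟨r', x', b', a'⟩ := h1
  obtain ⟨r, x, a, b⟩ := h2
  refine neither5 hk (h r r' ?_ x x') a b' b a'
  rintro rfl
  obtain ⟨c, c1, c2⟩ := a
  exact c2 (a' c c1)

end Pool.Agent.MP_92191b_al.K5
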