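import Pool.Agent.MP_92191b_al.K6.Basic

/-! A checker for finite refutations about centred sections in four coordinates over five
letters.  A typed word is coded by a number below `10000`. -/

namespace Pool.Agent.MP_92191b_al.K5.Cn

open K6

def da (y : ℕ) : ℕ := y / 2000
def db (y : ℕ) : ℕ := y / 400 % 5
def dc (y : ℕ) : ℕ := y / 80 % 5
def dd (y : ℕ) : ℕ := y / 16 % 5
def idx (a b c d t : ℕ) : ℕ := 16 * (((a * 5 + b) * 5 + c) * 5 + d) + t

/-- The number with the bits `0, w, 2 w, …`. -/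
def rp (w : ℕ) : ℕ → ℕ
  | 0 => 0
  | n + 1 => 2 ^ w * rp w n + 1

theorem tb_rp {w κ : ℕ} (hκ : κ < 2 ^ w) (n : ℕ) : ∀ y, y < w * n →
    (κ * rp w n).testBit y = κ.testBit (y % w) := by
  induction n with
  | zero => intro y hy; omega
  | succ n ih =>
    intro y hy
    have : κ * rp w (n + 1) = 2 ^ w * (κ * rp w n) + κ := by rw [rp]; ring
    rw [this, Nat.testBit_two_pow_mul_add _ hκ]
    split_ifs with h
    · rw [Nat.mod_eq_of_lt h]
    · rw [ih (y - w) (by rw [Nat.mul_succ] at hy; omega), ← Nat.mod_eq_sub_mod (by omega)]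

def full : ℕ := 2 ^ 10000 - 1
def r16 : ℕ := full / (2 ^ 16 - 1)
def r80 : ℕ := full / (2 ^ 80 - 1)
def r400 : ℕ := full / (2 ^ 400 - 1)
def r2000 : ℕ := full / (2 ^ 2000 - 1)

theorem r16_eq : r16 = rp 16 625 := by decide +kernel
theorem r80_eq : r80 = rp 80 125 := by decide +kernel
theorem r400_eq : r400 = rp 400 25 := by decide +kernel
theorem r2000_eq : r2000 = rp 2000 5 := by decide +kernel

def blk (w v : ℕ) : ℕ := (2 ^ w - 1) <<< (w * v)

theorem tb_blk (w v y : ℕ) : (blk w v).testBit y = decide (w * v ≤ y ∧ y - w * v < w) := by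
  rw [blk, Nat.testBit_shiftLeft, Nat.testBit_two_pow_sub_one, Bool.decide_and]

theorem blk_lt {w v : ℕ} (hv : v < 5) : blk w v < 2 ^ (w * 5) := by
  refine Nat.lt_pow_two_of_testBit _ fun i hi => ?_
  rw [tb_blk, decide_eq_false_iff_not]
  rintro ⟨h1, h2⟩
  have : w * (v + 1) ≤ w * 5 := Nat.mul_le_mul_left w hv
  rw [Nat.mul_succ] at this
  omega

def Ea (v : ℕ) : ℕ := blk 2000 v
def Eb (v : ℕ) : ℕ := blk 400 v * r2000
def Ec (v : ℕ) : ℕ := blk 80 v * r400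
def Ed (v : ℕ) : ℕ := blk 16 v * r80
def TT (κ : ℕ) : ℕ := κ % 2 ^ 16 * r16

theorem tb_full {y : ℕ} (hy : y < 10000) : full.testBit y = true := by
  rw [full, Nat.testBit_two_pow_sub_one]
  exact decide_eq_true hy

theorem tb_Ea (v y : ℕ) : (Ea v).testBit y = decide (da y = v) := by
  rw [Ea, tb_blk, decide_eq_decide, da]
  omega

theorem tb_Eb {v y : ℕ} (hv : v < 5) (hy : y < 10000) : (Eb v).testBit y = decide (db y = v) := by
  rw [Eb, r2000_eq, tb_rp (blk_lt (w := 400) hv) 5 y hy, tb_blk, decide_eq_decide, db]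
  omega

theorem tb_Ec {v y : ℕ} (hv : v < 5) (hy : y < 10000) : (Ec v).testBit y = decide (dc y = v) := by
  rw [Ec, r400_eq, tb_rp (blk_lt (w := 80) hv) 25 y hy, tb_blk, decide_eq_decide, dc]
  omega

theorem tb_Ed {v y : ℕ} (hv : v < 5) (hy : y < 10000) : (Ed v).testBit y = decide (dd y = v) := by
  rw [Ed, r80_eq, tb_rp (blk_lt (w := 16) hv) 125 y hy, tb_blk, decide_eq_decide, dd]
  omega

theorem tb_TT (κ : ℕ) {y : ℕ} (hy : y < 10000) :
    (TT κ).testBit y = κ.testBit (y % 16) := by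
  rw [TT, r16_eq, tb_rp (w := 16) (Nat.mod_lt _ (by norm_num)) 625 y hy]
  have := Nat.testBit_mod_two_pow κ 16 (y % 16)
  rw [decide_eq_true (Nat.mod_lt y (by norm_num)), Bool.true_and] at this
  exact this

theorem da_lt {y : ℕ} (hy : y < 10000) : da y < 5 := by unfold da; omega
theorem db_lt (y : ℕ) : db y < 5 := Nat.mod_lt _ (by norm_num)
theorem dc_lt (y : ℕ) : dc y < 5 := Nat.mod_lt _ (by norm_num)
theorem dd_lt (y : ℕ) : dd y < 5 := Nat.mod_lt _ (by norm_num)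

/-! ### Conflicts -/

def lo (t u : ℕ) : ℕ := nq (t.testBit 0) (u.testBit 0) + nq (t.testBit 1) (u.testBit 1) +
  nq (t.testBit 2) (u.testBit 2) + nq (t.testBit 3) (u.testBit 3)

def hi (t u : ℕ) : ℕ := bo (t.testBit 0) (u.testBit 0) + bo (t.testBit 1) (u.testBit 1) +
  bo (t.testBit 2) (u.testBit 2) + bo (t.testBit 3) (u.testBit 3)

def ds (y x : ℕ) : ℕ := nq (da y) (da x) + nq (db y) (db x) + nq (dc y) (dc x) + nq (dd y) (dd x)

def cf (y x : ℕ) : Prop := 0 < ds y x ∧ lo (y % 16) (x % 16) ≤ ds y x ∧ ds y x ≤ hi (y % 16) (x % 16)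

def KT : ℕ := 179769313444197538560569525057448516734283392836687977290505010604287132570927690493748563232722192144968100209817453331555354473554092734774661157546369325062173225895195353257316932385555893782338686341843180960177545966509466084323122285238087887146105246085969510897288599438479749275240213634694238437654

def kap (t n : ℕ) : ℕ := KT >>> (16 * (4 * t + n))

theorem kap_spec : ∀ t < 16, ∀ n < 4, ∀ u < 16, (kap t n).testBit u = true →
    lo t u ≤ n + 1 ∧ n + 1 ≤ hi t u := by decide +kernel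

def cm' (e1 e2 e3 e4 t1 t2 t3 t4 : ℕ) : ℕ :=
  (e1 &&& e2 &&& ((e3 ^^^ e4) &&& t1 ||| (full ^^^ (e3 ||| e4)) &&& t2)) |||
  ((e1 ^^^ e2) &&& (e3 &&& e4 &&& t1 ||| (e3 ^^^ e4) &&& t2 ||| (full ^^^ (e3 ||| e4)) &&& t3)) |||
  ((full ^^^ (e1 ||| e2)) &&&
    (e3 &&& e4 &&& t2 ||| (e3 ^^^ e4) &&& t3 ||| (full ^^^ (e3 ||| e4)) &&& t4))

/-- The typed words in conflict with `y`. -/
def cm (y : ℕ) : ℕ := cm' (Ea (da y)) (Eb (db y)) (Ec (dc y)) (Ed (dd y)) (TT (kap (y % 16) 0))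
  (TT (kap (y % 16) 1)) (TT (kap (y % 16) 2)) (TT (kap (y % 16) 3))

theorem cm_spec {y x : ℕ} (hx : x < 10000) (h : (cm y).testBit x = true) : cf y x := by
  have k := fun n hn => kap_spec (y % 16) (Nat.mod_lt _ (by norm_num)) n hn (x % 16)
    (Nat.mod_lt _ (by norm_num))
  have k0 := k 0 (by norm_num)
  have k1 := k 1 (by norm_num)
  have k2 := k 2 (by norm_num)
  have k3 := k 3 (by norm_num)
  simp only [cm, cm', Nat.testBit_or, Nat.testBit_and, Nat.testBit_xor, tb_full hx, tb_Ea,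
    tb_Eb (db_lt y) hx, tb_Ec (dc_lt y) hx, tb_Ed (dd_lt y) hx, tb_TT _ hx] at h
  unfold cf ds nq
  by_cases h1 : da x = da y <;> by_cases h2 : db x = db y <;> by_cases h3 : dc x = dc y <;>
    by_cases h4 : dd x = dd y <;>
    simp only [h1, h2, h3, h4, decide_true, decide_false, Bool.true_and, Bool.false_and,
      Bool.and_true, Bool.and_false, Bool.or_false, Bool.false_or, Bool.xor_true, Bool.xor_false,
      Bool.not_true, Bool.not_false, Bool.or_true, Bool.false_eq_true] at h <;>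
    simp only [h1, h2, h3, h4, if_true, if_false, eq_comm (a := da y), eq_comm (a := db y),
      eq_comm (a := dc y), eq_comm (a := dd y)] <;>
    first
      | exact ⟨by norm_num, k0 h⟩
      | exact ⟨by norm_num, k1 h⟩
      | exact ⟨by norm_num, k2 h⟩
      | exact ⟨by norm_num, k3 h⟩

/-! ### Items -/

def k1 (p : ℕ) : ℕ := 411374046963055407333030208300922800335432688255002696993254058 >>> (16 * p)
def k2 (p : ℕ) : ℕ := 329100911464241208430993836511470100996547173126715972097068236 >>> (16 * p)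
def k3 (p : ℕ) : ℕ := 5907860456920471455649132172817665194865646003432566354160 >>> (16 * p)
def k4 (p : ℕ) : ℕ := 409775453963257535789564310053192343653288307938150317576748800 >>> (16 * p)
def k0 (p : ℕ) : ℕ := 8066100345688845993359102342975766305993537099333044025688063 >>> (16 * p)

def inI (p z1 z2 z3 z4 y : ℕ) : Prop :=
  decide (da y = z1) ≠ (k1 p).testBit (y % 16) ∧ decide (db y = z2) ≠ (k2 p).testBit (y % 16) ∧
  decide (dc y = z3) ≠ (k3 p).testBit (y % 16) ∧ decide (dd y = z4) ≠ (k4 p).testBit (y % 16) ∧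
  (k0 p).testBit (y % 16) = true

instance (p z1 z2 z3 z4 y : ℕ) : Decidable (inI p z1 z2 z3 z4 y) := by
  unfold inI; infer_instance

def im (p z1 z2 z3 z4 : ℕ) : ℕ :=
  (Ea z1 ^^^ TT (k1 p)) &&& (Eb z2 ^^^ TT (k2 p)) &&& (Ec z3 ^^^ TT (k3 p)) &&&
    (Ed z4 ^^^ TT (k4 p)) &&& TT (k0 p)

theorem im_spec {p z1 z2 z3 z4 y : ℕ} (h2 : z2 < 5) (h3 : z3 < 5) (h4 : z4 < 5) (hy : y < 10000)
    (h : inI p z1 z2 z3 z4 y) : (im p z1 z2 z3 z4).testBit y = true := by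
  obtain ⟨a1, a2, a3, a4, a0⟩ := h
  simp only [im, Nat.testBit_and, Nat.testBit_xor, tb_Ea, tb_Eb h2 hy, tb_Ec h3 hy, tb_Ed h4 hy,
    tb_TT _ hy, Bool.and_eq_true, Bool.xor_iff_ne]
  exact ⟨⟨⟨⟨a1, a2⟩, a3⟩, a4⟩, a0⟩

def okI (md : Bool) (p z1 z2 z3 z4 : ℕ) : Prop :=
  p < 4 ∨ (z2 = 0 ∧ z4 = 0 ∧ ((p = 4 ∧ z1 = 0) ∨ (p = 5 ∧ z3 = 0) ∨
    (z1 = 0 ∧ z3 = 0 ∧ (p = 6 ∨ p = 7 ∨ (md = false ∧ (p = 8 ∨ p = 9)))) ∨
    (md = true ∧ ((p = 10 ∧ z1 = 0 ∧ z3 ≠ 0) ∨ (p = 11 ∧ z3 = 0 ∧ z1 ≠ 0)))))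

instance (md : Bool) (p z1 z2 z3 z4 : ℕ) : Decidable (okI md p z1 z2 z3 z4) := by
  unfold okI; infer_instance

def pat (t1 t2 t3 t4 : ℕ) : Prop :=
  (t1 = 10 ∧ t2 = 2 ∧ t3 = 8 ∧ t4 = 0) ∨ (t1 = 10 ∧ t2 = 10 ∧ t3 = 10 ∧ (t4 = 2 ∨ t4 = 8))

def gl (y1 y2 y3 y4 : ℕ) : Prop :=
  inI 12 0 0 0 0 y1 ∧ inI 12 0 0 0 0 y2 ∧ inI 12 0 0 0 0 y3 ∧ inI 12 0 0 0 0 y4 ∧
  da y1 ≠ da y2 ∧ da y1 ≠ da y3 ∧ da y1 ≠ da y4 ∧ da y2 ≠ da y3 ∧ da y2 ≠ da y4 ∧ da y3 ≠ da y4 ∧
  pat (y1 % 16) (y2 % 16) (y3 % 16) (y4 % 16)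

instance (y1 y2 y3 y4 : ℕ) : Decidable (gl y1 y2 y3 y4) := by
  unfold gl pat; infer_instance

structure Hyp (md : Bool) (W : ℕ → Prop) : Prop where
  sep : ∀ y < 10000, ∀ x < 10000, W y → W x → ¬cf y x
  cov : ∀ p, ∀ z1 < 5, ∀ z2 < 5, ∀ z3 < 5, ∀ z4 < 5, okI md p z1 z2 z3 z4 →
    ∃ y < 10000, W y ∧ inI p z1 z2 z3 z4 y
  ng : md = false → ∀ y1 < 10000, ∀ y2 < 10000, ∀ y3 < 10000, ∀ y4 < 10000,
    W y1 → W y2 → W y3 → W y4 → ¬gl y1 y2 y3 y4

/-! ### Renaming letters -/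

structure Inv (g : ℕ → ℕ) : Prop where
  inv : ∀ v, g (g v) = v
  zero : g 0 = 0
  lt : ∀ v < 5, g v < 5

theorem Inv.eq_iff {g : ℕ → ℕ} (h : Inv g) (u v : ℕ) : g u = v ↔ u = g v :=
  ⟨fun e => by rw [← e, h.inv], fun e => by rw [e, h.inv]⟩

theorem Inv.inj {g : ℕ → ℕ} (h : Inv g) (u v : ℕ) : g u = g v ↔ u = v := by
  rw [h.eq_iff, h.inv]

theorem Inv.eq_zero {g : ℕ → ℕ} (h : Inv g) (u : ℕ) : g u = 0 ↔ u = 0 := by
  rw [h.eq_iff, h.zero]

theorem Inv.nq {g : ℕ → ℕ} (h : Inv g) (u v : ℕ) : nq (g u) (g v) = nq u v := by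
  simp only [K6.nq, h.inj]

def act (g1 g2 g3 g4 : ℕ → ℕ) (y : ℕ) : ℕ :=
  idx (g1 (da y)) (g2 (db y)) (g3 (dc y)) (g4 (dd y)) (y % 16)

theorem idx_spec {a b c d t : ℕ} (ha : a < 5) (hb : b < 5) (hc : c < 5) (hd : d < 5)
    (ht : t < 16) : idx a b c d t < 10000 ∧ da (idx a b c d t) = a ∧ db (idx a b c d t) = b ∧
      dc (idx a b c d t) = c ∧ dd (idx a b c d t) = d ∧ idx a b c d t % 16 = t := by
  unfold idx da db dc dd
  omega

theorem idx_self (y : ℕ) : idx (da y) (db y) (dc y) (dd y) (y % 16) = y := by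
  unfold idx da db dc dd
  omega

section
variable {g1 g2 g3 g4 : ℕ → ℕ} (h1 : Inv g1) (h2 : Inv g2) (h3 : Inv g3) (h4 : Inv g4)
include h1 h2 h3 h4

theorem act_spec {y : ℕ} (hy : y < 10000) : act g1 g2 g3 g4 y < 10000 ∧
    da (act g1 g2 g3 g4 y) = g1 (da y) ∧ db (act g1 g2 g3 g4 y) = g2 (db y) ∧
    dc (act g1 g2 g3 g4 y) = g3 (dc y) ∧ dd (act g1 g2 g3 g4 y) = g4 (dd y) ∧
    act g1 g2 g3 g4 y % 16 = y % 16 :=
  idx_spec (h1.lt _ (da_lt hy)) (h2.lt _ (db_lt y)) (h3.lt _ (dc_lt y)) (h4.lt _ (dd_lt y))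
    (Nat.mod_lt _ (by norm_num))

theorem act_act {y : ℕ} (hy : y < 10000) : act g1 g2 g3 g4 (act g1 g2 g3 g4 y) = y := by
  obtain ⟨-, a1, a2, a3, a4, a0⟩ := act_spec h1 h2 h3 h4 hy
  rw [act, a1, a2, a3, a4, a0, h1.inv, h2.inv, h3.inv, h4.inv, idx_self]

theorem act_inI {p z1 z2 z3 z4 y : ℕ} (hy : y < 10000)
    (h : inI p (g1 z1) (g2 z2) (g3 z3) (g4 z4) y) : inI p z1 z2 z3 z4 (act g1 g2 g3 g4 y) := by
  obtain ⟨-, a1, a2, a3, a4, a0⟩ := act_spec h1 h2 h3 h4 hy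
  simpa only [inI, a1, a2, a3, a4, a0, h1.eq_iff, h2.eq_iff, h3.eq_iff, h4.eq_iff] using h

theorem Hyp.act {md : Bool} {W : ℕ → Prop} (H : Hyp md W) :
    Hyp md fun y => W (act g1 g2 g3 g4 y) where
  sep y hy x hx wy wx h := by
    obtain ⟨b, a1, a2, a3, a4, a0⟩ := act_spec h1 h2 h3 h4 hy
    obtain ⟨b', c1, c2, c3, c4, c0⟩ := act_spec h1 h2 h3 h4 hx
    refine H.sep _ b _ b' wy wx ?_
    simpa only [cf, ds, a1, a2, a3, a4, a0, c1, c2, c3, c4, c0, h1.nq, h2.nq, h3.nq, h4.nq]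
      using h
  cov p z1 l1 z2 l2 z3 l3 z4 l4 h := by
    obtain ⟨y, hy, wy, iy⟩ := H.cov p _ (h1.lt _ l1) _ (h2.lt _ l2) _ (h3.lt _ l3) _ (h4.lt _ l4)
      (by simpa only [okI, ne_eq, h1.eq_zero, h2.eq_zero, h3.eq_zero, h4.eq_zero] using h)
    exact ⟨_, (act_spec h1 h2 h3 h4 hy).1, by rwa [act_act h1 h2 h3 h4 hy],
      act_inI h1 h2 h3 h4 hy iy⟩
  ng hm y1 l1 y2 l2 y3 l3 y4 l4 w1 w2 w3 w4 h := by
    have s1 := act_spec h1 h2 h3 h4 l1
    have s2 := act_spec h1 h2 h3 h4 l2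
    have s3 := act_spec h1 h2 h3 h4 l3
    have s4 := act_spec h1 h2 h3 h4 l4
    have key : ∀ y < 10000, inI 12 0 0 0 0 y → inI 12 0 0 0 0 (Cn.act g1 g2 g3 g4 y) :=
      fun y hy hi => act_inI h1 h2 h3 h4 hy (by rwa [h1.zero, h2.zero, h3.zero, h4.zero])
    refine H.ng hm _ s1.1 _ s2.1 _ s3.1 _ s4.1 w1 w2 w3 w4
      ⟨key _ l1 h.1, key _ l2 h.2.1, key _ l3 h.2.2.1, key _ l4 h.2.2.2.1, ?_⟩
    simpa only [s1.2.1, s2.2.1, s3.2.1, s4.2.1, s1.2.2.2.2.2, s2.2.2.2.2.2, s3.2.2.2.2.2,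
      s4.2.2.2.2.2, ne_eq, h1.inj] using h.2.2.2.2

end

/-- The letter `v` has been used in coordinate `j`. -/
def usd (us j v : ℕ) : Bool := Nat.beq v 0 || us.testBit (5 * j + v)

def mark (us y : ℕ) : ℕ :=
  us ||| 2 ^ (5 * 0 + da y) ||| 2 ^ (5 * 1 + db y) ||| 2 ^ (5 * 2 + dc y) ||| 2 ^ (5 * 3 + dd y)

def Usd (us y : ℕ) : Prop :=
  usd us 0 (da y) = true ∧ usd us 1 (db y) = true ∧ usd us 2 (dc y) = true ∧
    usd us 3 (dd y) = true

theorem usd_mark {us j v : ℕ} (y : ℕ) (h : usd us j v = true) : usd (mark us y) j v = true := by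
  simp only [usd, mark, Nat.testBit_or, Bool.or_eq_true] at h ⊢
  tauto

theorem Usd_mark (us y : ℕ) : Usd (mark us y) y := by
  simp only [Usd, usd, mark, Nat.testBit_or, Bool.or_eq_true, Nat.testBit_two_pow_self]
  tauto

def ob (E : ℕ → ℕ) (us j v : ℕ) : ℕ :=
  cond (usd us j v) (E v) (cond (usd us j 1) 0 (E 1) ||| cond (usd us j 2) 0 (E 2) |||
    cond (usd us j 3) 0 (E 3) ||| cond (usd us j 4) 0 (E 4))

/-- The typed words obtained from `y` by renaming unused letters. -/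
def orb (us y : ℕ) : ℕ :=
  ob Ea us 0 (da y) &&& ob Eb us 1 (db y) &&& ob Ec us 2 (dc y) &&& ob Ed us 3 (dd y) &&&
    TT (2 ^ (y % 16))

theorem ob_spec {E : ℕ → ℕ} {us j v w x : ℕ} (hv : v < 5) (hw : w < 5)
    (hE : ∀ u < 5, (E u).testBit x = decide (w = u)) (h : (ob E us j v).testBit x = true) :
    ∃ g, Inv g ∧ g v = w ∧ ∀ u, usd us j u = true → g u = u := by
  unfold ob at h
  cases hu : usd us j v
  · have hw' : usd us j w = false := by
      rw [hu, cond_false] at h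
      simp only [Nat.testBit_or, Bool.or_eq_true] at h
      rcases h with ((h | h) | h) | h
      all_goals
        revert h
        generalize hq : usd us j _ = q
        cases q
        · intro h
          rw [cond_false, hE _ (by norm_num), decide_eq_true_iff] at h
          rwa [h]
        · intro h
          rw [cond_true, Nat.zero_testBit] at h
          exact absurd h (by decide)
    have fx : ∀ u, usd us j u = true → Equiv.swap v w u = u := fun u hu' =>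
      Equiv.swap_apply_of_ne_of_ne (fun e => by rw [e, hu] at hu'; exact absurd hu' (by decide))
        fun e => by rw [e, hw'] at hu'; exact absurd hu' (by decide)
    refine ⟨Equiv.swap v w, ⟨Equiv.swap_apply_self v w, fx 0 rfl, fun u hu' => ?_⟩,
      Equiv.swap_apply_left v w, fx⟩
    rw [Equiv.swap_apply_def]
    split_ifs <;> assumption
  · rw [hu, cond_true, hE v hv, decide_eq_true_iff] at h
    exact ⟨id, ⟨fun _ => rfl, rfl, fun _ h => h⟩, h.symm, fun _ _ => rfl⟩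

def Ref (md : Bool) (l : List ℕ) (y : ℕ) : Prop :=
  ∀ W : ℕ → Prop, Hyp md W → (∀ w ∈ l, W w) → ¬W y

theorem orb_spec {md : Bool} {l : List ℕ} {us y x : ℕ} (hl : ∀ w ∈ l, Usd us w)
    (hy : y < 10000) (hx : x < 10000) (h : (orb us y).testBit x = true) (R : Ref md l y) :
    Ref md l x := by
  simp only [orb, Nat.testBit_and, Bool.and_eq_true, tb_TT _ hx, Nat.testBit_two_pow,
    decide_eq_true_iff] at h
  obtain ⟨⟨⟨⟨o1, o2⟩, o3⟩, o4⟩, o0⟩ := h
  obtain ⟨g1, i1, v1, f1⟩ := ob_spec (da_lt hy) (da_lt hx) (fun u _ => tb_Ea u x) o1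
  obtain ⟨g2, i2, v2, f2⟩ := ob_spec (db_lt y) (db_lt x) (fun u hu => tb_Eb hu hx) o2
  obtain ⟨g3, i3, v3, f3⟩ := ob_spec (dc_lt y) (dc_lt x) (fun u hu => tb_Ec hu hx) o3
  obtain ⟨g4, i4, v4, f4⟩ := ob_spec (dd_lt y) (dd_lt x) (fun u hu => tb_Ed hu hx) o4
  intro W H hW wx
  refine R _ (H.act i1 i2 i3 i4) (fun w hw => ?_) ?_
  · obtain ⟨u1, u2, u3, u4⟩ := hl w hw
    rw [act, f1 _ u1, f2 _ u2, f3 _ u3, f4 _ u4, idx_self]
    exact hW w hw
  · rwa [act, v1, v2, v3, v4, o0, idx_self]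

/-! ### The checker -/

inductive Tr where
  | L (p z : ℕ) : Tr
  | G (y1 y2 y3 y4 : ℕ) : Tr
  | S (y : ℕ) (t u : Tr) : Tr

def frc (x : ℕ) (f : ℕ → Bool) : Bool := Nat.rec (f 0) (fun n _ => f (n + 1)) x

theorem frc_eq (x : ℕ) (f : ℕ → Bool) : frc x f = f x := by cases x <;> rfl

def mem (l : List ℕ) (y : ℕ) : Bool := Nat.blt y 10000 && l.any (Nat.beq y)

def chk (md : Bool) : Tr → List ℕ → ℕ → ℕ → Bool
  | .L p z, _, _, e => Nat.blt z 625 &&
      decide (okI md p (z / 125) (z / 25 % 5) (z / 5 % 5) (z % 5)) &&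
      Nat.beq (im p (z / 125) (z / 25 % 5) (z / 5 % 5) (z % 5) ||| e) e
  | .G y1 y2 y3 y4, l, _, _ => !md && mem l y1 && mem l y2 && mem l y3 && mem l y4 &&
      decide (gl y1 y2 y3 y4)
  | .S y t u, l, us, e => Nat.blt y 10000 &&
      frc (e ||| cm y) (fun e' => frc (mark us y) fun us' => chk md t (y :: l) us' e') &&
      frc (e ||| orb us y) fun e' => chk md u l us e'

theorem mem_spec {l : List ℕ} {y : ℕ} (h : mem l y = true) : y < 10000 ∧ y ∈ l := by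
  obtain ⟨h1, h2⟩ := Bool.and_eq_true_iff.1 h
  obtain ⟨x, hx, h3⟩ := List.any_eq_true.1 h2
  rw [Nat.eq_of_beq_eq_true h3] at h1 ⊢
  exact ⟨by simpa using h1, hx⟩

theorem sound (md : Bool) (t : Tr) : ∀ (l : List ℕ) (us e : ℕ), (∀ w ∈ l, Usd us w) →
    (∀ x < 10000, e.testBit x = true → Ref md l x) → chk md t l us e = true →
    ∀ W : ℕ → Prop, Hyp md W → (∀ w ∈ l, W w) → False := by
  induction t with
  | L p z =>
    intro l us e _ he h W H hW
    simp only [chk, Bool.and_eq_true, decide_eq_true_iff] at h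
    obtain ⟨⟨hz, ho⟩, hm⟩ := h
    have hz' : z < 625 := by simpa using hz
    have m5 : ∀ n, n % 5 < 5 := fun n => Nat.mod_lt _ (by norm_num)
    obtain ⟨y, hy, wy, iy⟩ := H.cov p _ (by omega) _ (m5 _) _ (m5 _) _ (m5 _) ho
    refine he y hy ?_ W H hW wy
    rw [← Nat.eq_of_beq_eq_true hm, Nat.testBit_or, im_spec (m5 _) (m5 _) (m5 _) hy iy,
      Bool.true_or]
  | G y1 y2 y3 y4 =>
    intro l us e _ _ h W H hW
    simp only [chk, Bool.and_eq_true, decide_eq_true_iff, Bool.not_eq_true'] at h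
    obtain ⟨⟨⟨⟨⟨hm, m1⟩, m2⟩, m3⟩, m4⟩, hg⟩ := h
    exact H.ng hm _ (mem_spec m1).1 _ (mem_spec m2).1 _ (mem_spec m3).1 _ (mem_spec m4).1
      (hW _ (mem_spec m1).2) (hW _ (mem_spec m2).2) (hW _ (mem_spec m3).2)
      (hW _ (mem_spec m4).2) hg
  | S y t u it iu =>
    intro l us e hl he h
    simp only [chk, Bool.and_eq_true, frc_eq] at h
    obtain ⟨⟨hy, ht⟩, hu⟩ := h
    have hy' : y < 10000 := by simpa using hy
    have R : Ref md l y := by
      intro W H hW wy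
      refine it (y :: l) _ _ (fun w hw => ?_) (fun x hx hb => ?_) ht W H fun w hw => ?_
      · rcases List.mem_cons.1 hw with rfl | hw
        · exact Usd_mark us w
        · obtain ⟨u1, u2, u3, u4⟩ := hl w hw
          exact ⟨usd_mark y u1, usd_mark y u2, usd_mark y u3, usd_mark y u4⟩
      · intro W' H' hW' wx
        rw [Nat.testBit_or, Bool.or_eq_true] at hb
        rcases hb with hb | hb
        · exact he x hx hb W' H' (fun w hw => hW' w (List.mem_cons_of_mem _ hw)) wx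
        · exact H'.sep y hy' x hx (hW' y List.mem_cons_self) wx (cm_spec hx hb)
      · rcases List.mem_cons.1 hw with rfl | hw
        · exact wy
        · exact hW w hw
    refine iu l us _ hl (fun x hx hb => ?_) hu
    rw [Nat.testBit_or, Bool.or_eq_true] at hb
    rcases hb with hb | hb
    · exact he x hx hb
    · exact orb_spec hl hy' hx hb R

theorem sound0 {md : Bool} {t : Tr} (h : chk md t [5] 0 (cm 5) = true) {W : ℕ → Prop}
    (H : Hyp md W) (w : W 5) : False := by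
  refine sound md t [5] 0 (cm 5) ?_ (fun x hx hb W' H' hW' wx => ?_) h W H ?_
  · intro w hw
    rw [List.mem_singleton.1 hw]
    exact ⟨rfl, rfl, rfl, rfl⟩
  · exact H'.sep 5 (by norm_num) x hx (hW' 5 List.mem_cons_self) wx (cm_spec hx hb)
  · intro x hx
    rwa [List.mem_singleton.1 hx]

end Pool.Agent.MP_92191b_al.K5.Cn
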