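import Pool.Agent.MP_92191b_al.K5.Cn

/-! The two refutations. -/

namespace Pool.Agent.MP_92191b_al.K5.Cn

def tN : Tr :=
  (.S 80 (.S 2000 (.S 160 (.S 4000 (.S 240 (.S 6000 (.S 320 (.L 6 0) (.S 722 (.S 8000 (.L 7 0) (.S
  8024 (.L 1 20) (.L 11 500))) (.L 10 20))) (.S 6024 (.S 8040 (.S 320 (.L 6 0) (.S 722 (.L 1 20) (.L
  10 20))) (.L 11 500)) (.L 11 375))) (.S 642 (.S 1122 (.S 6000 (.S 8000 (.L 7 0) (.S 8024 (.L 1 15)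
  (.L 11 500))) (.S 6024 (.L 3 1) (.L 11 375))) (.L 10 20)) (.L 10 15))) (.S 4024 (.S 6040 (.S 8056
  (.S 72 (.L 3 0) (.L 1 1)) (.L 11 500)) (.L 11 375)) (.L 11 250))) (.S 562 (.S 1042 (.S 1522 (.S
  1602 (.S 1600 (.S 2002 (.L 11 250) (.L 2 225)) (.S 5608 (.S 6000 (.L 1 0) (.L 2 375)) (.L 2 100)))
  (.L 3 25)) (.L 10 20)) (.L 10 15)) (.L 10 10))) (.S 2024 (.S 4040 (.S 6056 (.S 8072 (.S 92 (.S 160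
  (.S 240 (.S 320 (.L 6 0) (.L 1 20)) (.L 1 15)) (.L 1 10)) (.S 172 (.S 160 (.S 240 (.S 320 (.L 6 0)
  (.L 1 20)) (.L 1 15)) (.L 1 10)) (.L 1 1))) (.L 11 500)) (.L 11 375)) (.L 11 250)) (.L 11 125)))
  (.S 482 (.S 962 (.S 1442 (.S 1922 (.S 0 (.S 2000 (.S 2003 (.S 4000 (.S 6000 (.S 8000 (.L 7 0) (.L
  3 500)) (.L 3 375)) (.L 3 250)) (.S 4003 (.S 4000 (.S 6000 (.S 8000 (.L 7 0) (.L 3 500)) (.L 3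
  375)) (.L 2 250)) (.L 3 25))) (.S 2024 (.S 4040 (.S 6056 (.S 500 (.S 4433 (.L 1 28) (.L 0 27)) (.S
  2417 (.S 980 (.L 3 76) (.L 0 51)) (.S 2501 (.S 4433 (.L 1 32) (.L 0 27)) (.L 0 26)))) (.L 11 375))
  (.L 11 250)) (.L 11 125))) (.L 3 0)) (.L 10 20)) (.L 10 15)) (.L 10 10)) (.L 10 5)))

def tB : Tr :=
  (.S 482 (.S 184 (.S 2082 (.S 2168 (.S 0 (.S 661 (.L 0 26) (.S 4983 (.L 0 11) (.L 1 1))) (.S 88 (.S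
  162 (.S 568 (.S 2579 (.S 2582 (.S 2505 (.S 2426 (.S 2508 (.S 2914 (.S 4837 (.S 6616 (.L 3 404) (.L
  2 38)) (.L 0 57)) (.L 0 132)) (.L 0 150)) (.L 5 125)) (.L 1 130)) (.L 2 131)) (.L 0 61)) (.L 3
  25)) (.L 2 35)) (.S 802 (.S 162 (.L 1 6) (.L 0 35)) (.L 3 0)))) (.S 4970 (.S 4177 (.S 977 (.S 2505
  (.S 2485 (.S 22 (.S 2658 (.L 3 146) (.L 0 141)) (.L 0 31)) (.L 0 35)) (.L 3 286)) (.L 0 186)) (.S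
  4979 (.S 824 (.S 5001 (.S 88 (.S 5364 (.L 2 355) (.L 2 330)) (.S 4983 (.S 532 (.L 0 39) (.L 0 38))
  (.L 0 6))) (.L 0 60)) (.L 1 50)) (.S 5063 (.L 2 65) (.L 0 11)))) (.L 2 10))) (.S 2122 (.S 0 (.S
  2112 (.S 4129 (.S 4000 (.S 48 (.S 2177 (.L 0 1) (.S 2192 (.S 4148 (.S 6145 (.S 8261 (.L 1 501) (.L
  0 6)) (.L 3 9)) (.L 0 254)) (.L 2 137))) (.S 4010 (.S 2197 (.L 0 9) (.L 0 252)) (.L 1 3))) (.S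
  4056 (.L 0 6) (.L 1 250))) (.S 4213 (.L 0 9) (.L 0 8))) (.S 2132 (.S 2521 (.L 1 125) (.S 2645 (.S
  597 (.S 2632 (.S 2369 (.S 752 (.S 178 (.S 2802 (.S 2981 (.S 1114 (.S 4261 (.S 4066 (.S 4072 (.S
  6000 (.S 8229 (.S 8426 (.G 8426 2802 4072 6000) (.L 5 500)) (.L 0 9)) (.S 6426 (.S 8000 (.G 6426
  2802 4072 8000) (.L 5 500)) (.L 5 375))) (.L 5 250)) (.L 1 4)) (.L 0 11)) (.L 4 15)) (.L 1 126))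
  (.L 5 125)) (.L 1 136)) (.L 2 47)) (.L 2 145)) (.L 3 159)) (.L 1 2)) (.L 0 30))) (.S 4113 (.S 412
  (.L 0 25) (.S 488 (.S 4000 (.S 834 (.S 597 (.S 592 (.S 4592 (.S 901 (.S 928 (.S 48 (.S 4132 (.S
  4224 (.S 4961 (.S 2869 (.S 2632 (.S 4417 (.S 6229 (.S 8066 (.S 6449 (.S 8072 (.S 6426 (.S 3202 (.G
  6426 3202 8072 4000) (.S 3602 (.G 6426 3602 8072 4000) (.L 5 125))) (.L 5 375)) (.L 5 500)) (.L 2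
  402)) (.L 1 379)) (.L 0 9)) (.L 2 275)) (.L 1 162)) (.L 0 309)) (.L 2 311)) (.L 0 264)) (.L 0
  253)) (.L 3 3)) (.S 2853 (.L 0 59) (.L 0 58))) (.L 1 1)) (.L 3 287)) (.L 3 37)) (.L 0 282)) (.L 2
  2)) (.L 1 250)) (.L 0 31))) (.L 3 132)))) (.S 490 (.S 2112 (.S 412 (.L 4 0) (.S 488 (.S 2096 (.S
  516 (.S 210 (.L 3 9) (.L 0 38)) (.L 0 37)) (.S 2180 (.S 186 (.S 2481 (.S 2448 (.S 2464 (.S 4112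
  (.S 6112 (.S 8112 (.S 2426 (.S 901 (.S 834 (.S 842 (.S 4248 (.S 5138 (.L 3 303) (.L 0 271)) (.S
  5058 (.S 4328 (.L 3 303) (.L 1 271)) (.L 0 266))) (.L 4 0)) (.L 2 2)) (.S 2816 (.S 1242 (.S 1301
  (.S 4248 (.S 5538 (.L 3 328) (.L 0 271)) (.S 5458 (.S 4328 (.L 3 328) (.L 0 271)) (.L 0 266))) (.L
  0 201)) (.S 1642 (.S 1701 (.S 4248 (.S 5938 (.L 3 353) (.L 0 271)) (.S 5858 (.S 4328 (.L 3 353)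
  (.L 0 271)) (.L 0 266))) (.L 0 226)) (.L 4 0))) (.L 0 176))) (.L 5 125)) (.L 0 507)) (.L 0 382))
  (.L 0 257)) (.L 1 154)) (.L 1 153)) (.L 0 30)) (.L 3 26)) (.L 0 131))) (.L 0 31))) (.L 3 132)) (.S
  802 (.S 2481 (.S 412 (.S 2524 (.S 162 (.S 2273 (.L 1 20) (.L 0 17)) (.L 0 35)) (.L 0 150)) (.L 0
  31)) (.S 2521 (.S 434 (.S 18 (.S 2132 (.L 0 129) (.L 0 128)) (.S 408 (.S 186 (.S 1380 (.L 0 101)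
  (.L 0 76)) (.L 0 35)) (.L 0 26))) (.L 2 2)) (.L 0 30))) (.L 3 0)))) (.L 1 5))) (.S 986 (.S 2168
  (.S 240 (.S 0 (.S 488 (.S 2885 (.S 320 (.S 497 (.S 2177 (.S 2181 (.S 32 (.S 48 (.S 64 (.S 2426 (.S
  501 (.S 1396 (.S 3249 (.L 0 79) (.L 0 78)) (.S 3233 (.S 1412 (.L 0 79) (.L 1 83)) (.L 0 77))) (.L
  0 286)) (.L 7 0)) (.L 1 4)) (.L 1 3)) (.L 1 2)) (.L 0 1)) (.L 0 11)) (.L 2 30)) (.L 4 20)) (.L 0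
  50)) (.S 728 (.S 3143 (.L 4 20) (.L 0 26)) (.L 3 25))) (.S 1202 (.L 2 35) (.L 3 0))) (.S 1442 (.S
  0 (.S 1922 (.L 2 25) (.S 1962 (.S 648 (.L 2 75) (.L 0 41)) (.L 4 20))) (.S 1602 (.L 4 20) (.L 3
  0))) (.S 1482 (.S 1978 (.S 72 (.S 146 (.S 2961 (.S 88 (.L 1 11) (.L 3 0)) (.L 3 60)) (.L 2 34))
  (.L 0 1)) (.L 4 20)) (.L 4 15)))) (.S 3370 (.S 2484 (.S 576 (.S 2481 (.S 3760 (.S 3360 (.L 2 205)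
  (.L 1 210)) (.L 0 235)) (.L 3 30)) (.L 3 36)) (.S 2560 (.S 500 (.S 497 (.S 1776 (.S 2341 (.L 4 20)
  (.L 0 6)) (.L 1 111)) (.L 3 156)) (.S 576 (.S 2177 (.S 2180 (.S 2920 (.S 2680 (.S 1393 (.S 2514
  (.S 3924 (.S 1962 (.S 1860 (.S 2 (.S 408 (.S 3077 (.S 3626 (.S 56 (.S 3265 (.S 2690 (.S 2394 (.S
  4305 (.S 4744 (.S 4874 (.S 6402 (.S 9242 (.G 3626 4874 9242 6402) (.L 5 500)) (.S 7242 (.S 8402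
  (.G 3626 4874 7242 8402) (.L 5 500)) (.L 5 375))) (.L 5 250)) (.L 0 299)) (.L 0 144)) (.L 0 170))
  (.L 0 143)) (.L 0 79)) (.S 72 (.S 3249 (.S 2706 (.S 2378 (.S 4289 (.S 4744 (.S 4858 (.S 6402 (.S
  9242 (.G 3626 4858 9242 6402) (.L 5 500)) (.S 7242 (.S 8402 (.G 3626 4858 7242 8402) (.L 5 500))
  (.L 5 375))) (.L 5 250)) (.L 0 298)) (.L 0 143)) (.L 0 170)) (.L 0 144)) (.L 0 78)) (.L 4 0))) (.L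
  5 125)) (.L 0 62)) (.L 0 27)) (.L 0 100)) (.L 0 121)) (.L 2 172)) (.L 0 230)) (.L 2 207)) (.L 1
  37)) (.L 3 162)) (.L 1 181)) (.L 0 126)) (.S 2261 (.L 1 81) (.L 0 11))) (.L 2 36))) (.L 0 160)))
  (.L 2 10))) (.L 9 0))) (.S 506 (.S 160 (.S 2082 (.S 2088 (.S 2097 (.S 2100 (.S 2645 (.S 2640 (.S
  2826 (.S 741 (.L 3 35) (.L 2 40)) (.L 5 125)) (.L 3 165)) (.L 1 130)) (.L 0 126)) (.S 2261 (.S 320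
  (.S 2481 (.S 2485 (.S 2484 (.S 2442 (.S 673 (.S 48 (.S 64 (.S 4000 (.S 6000 (.S 8117 (.S 932 (.S
  2865 (.L 2 307) (.L 0 54)) (.S 2849 (.S 948 (.L 2 307) (.L 0 54)) (.L 0 53))) (.L 0 127)) (.S 6024
  (.S 6117 (.S 932 (.S 2865 (.L 2 307) (.L 0 54)) (.S 2849 (.S 948 (.L 2 307) (.L 0 54)) (.L 0 53)))
  (.L 0 127)) (.L 5 375))) (.S 4024 (.S 4117 (.S 932 (.S 2865 (.L 2 432) (.L 0 54)) (.S 2849 (.S 948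
  (.L 2 432) (.L 0 54)) (.L 0 53))) (.L 0 127)) (.L 5 250))) (.L 1 4)) (.L 1 3)) (.L 2 40)) (.L 8
  0)) (.L 2 165)) (.L 0 35)) (.L 0 30)) (.L 4 20)) (.L 0 6))) (.S 4088 (.S 4499 (.S 4502 (.L 1 11)
  (.L 0 251)) (.S 4663 (.L 0 40) (.L 0 6))) (.L 2 5))) (.S 2122 (.S 4890 (.S 4097 (.S 4100 (.S 2112
  (.S 4024 (.S 4437 (.S 168 (.L 1 140) (.L 0 11)) (.L 1 257)) (.S 5226 (.S 162 (.L 1 1) (.L 0 35))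
  (.L 5 250))) (.S 4101 (.S 2816 (.S 4018 (.S 4437 (.S 840 (.S 4672 (.S 4752 (.S 2481 (.S 1200 (.S
  2485 (.S 1380 (.S 5441 (.L 0 95) (.L 0 215)) (.S 5361 (.S 4964 (.L 2 355) (.L 1 305)) (.L 3 85)))
  (.L 0 25)) (.L 0 75)) (.L 0 30)) (.L 0 297)) (.L 0 292)) (.L 1 51)) (.L 1 257)) (.L 2 326)) (.L 0
  176)) (.L 3 132))) (.L 1 251)) (.S 4261 (.S 320 (.S 2481 (.S 2402 (.L 3 90) (.L 5 125)) (.S 2645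
  (.S 1077 (.S 1072 (.S 170 (.S 4597 (.L 3 146) (.L 0 47)) (.S 992 (.S 1082 (.S 10 (.S 501 (.S 7411
  (.S 9827 (.L 0 86) (.L 0 164)) (.S 7811 (.S 9427 (.L 0 86) (.L 0 164)) (.S 9411 (.S 7827 (.L 0 86)
  (.L 0 164)) (.S 9811 (.S 7427 (.L 0 86) (.L 0 164)) (.L 0 38))))) (.L 0 151)) (.L 0 52)) (.L 4
  15)) (.L 0 62))) (.L 1 67)) (.L 3 190)) (.L 0 30))) (.L 4 20)) (.L 0 6))) (.L 2 5)) (.L 1 5))) (.S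
  200 (.S 296 (.S 392 (.S 496 (.S 896 (.S 2097 (.S 2509 (.L 0 161) (.L 0 35)) (.L 0 6)) (.L 2 56))
  (.L 2 31)) (.S 1194 (.S 210 (.S 512 (.S 737 (.L 0 35) (.L 2 49)) (.L 1 32)) (.L 0 38)) (.L 4 20)))
  (.S 1098 (.S 1594 (.S 1602 (.S 496 (.S 1088 (.S 1584 (.S 3795 (.S 34 (.S 2012 (.L 7 0) (.S 3798
  (.S 8 (.S 512 (.S 1008 (.S 1424 (.S 2040 (.S 4097 (.S 4600 (.S 4100 (.S 6289 (.S 8385 (.S 7000 (.S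
  9400 (.S 4826 (.S 6949 (.S 4773 (.S 9461 (.S 7258 (.S 8474 (.G 4826 7258 8474 2040) (.L 5 500))
  (.L 5 375)) (.L 0 211)) (.L 0 163)) (.L 2 436)) (.S 5226 (.S 9333 (.S 4709 (.S 7141 (.S 6458 (.S
  8874 (.G 5226 6458 8874 2040) (.L 5 500)) (.L 5 375)) (.L 0 186)) (.L 0 164)) (.L 0 78)) (.L 5
  250))) (.L 0 589)) (.L 0 438)) (.L 2 520)) (.L 0 18)) (.L 0 261)) (.L 0 286)) (.L 0 6)) (.L 5
  125)) (.L 3 89)) (.L 3 63)) (.L 0 32)) (.L 0 1)) (.L 0 132))) (.L 0 27)) (.L 1 12)) (.L 2 99)) (.L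
  2 68)) (.L 2 31)) (.L 0 25)) (.L 4 20)) (.L 4 15))) (.S 1002 (.S 1498 (.S 1994 (.S 2505 (.S 501
  (.S 10 (.L 7 0) (.L 0 27)) (.L 1 61)) (.L 0 32)) (.L 4 20)) (.L 4 15)) (.L 4 10)))) (.L 6 0)))

theorem cN : chk true tN [5] 0 (cm 5) = true := by decide +kernel

theorem cB : chk false tB [5] 0 (cm 5) = true := by decide +kernel

end Pool.Agent.MP_92191b_al.K5.Cn
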